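import Pool.Agent.Lib.MP_bea9c1_prK.Big

/-!
# MP_bea9c1_pr: long windows

`WK K`: non-concentration once in every window of length `K σ_m`.  For `σ_m ≥ B` as in
`Win.win` with `sd_stable`; for `σ_m < B` by the pigeonhole principle (`many`).
-/

set_option autoImplicit false

namespace ChiVar

/-- Non-concentration once in every window of length `K σ_m`. -/
def WK (K : ℝ) : Prop :=
  ∀ C : ℝ, 0 < C → ∃ δ : ℝ, 0 < δ ∧ ∃ n₀ : ℕ, ∀ m, n₀ ≤ m → ∃ n : ℕ,
    |(n : ℝ) - m| ≤ K * sd m ∧ ∀ a : ℝ, P n a (C * sd n) ≤ 1 - δ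

/-- Non-concentration at scale `C` gives a lower bound for the standard deviation. -/
theorem sd_ge_of_nc {n : ℕ} {C δ : ℝ} (hC : 0 < C) (h : ∀ a : ℝ, P n a (C * sd n) ≤ 1 - δ) :
    √(δ / 4) ≤ sd n := by
  rw [Real.sqrt_le_iff]
  refine ⟨sd_nonneg n, ?_⟩
  have h1 := h (round (E n (Y n)) : ℝ)
  have h2 : 1 - 4 * sd n ^ 2 ≤ P n (round (E n (Y n)) : ℝ) (C * sd n) := by
    refine cheb (fun G hG => ?_) (by norm_num)
    have h3 : (Y n G) ≠ (round (E n (Y n)) : ℝ) := by
      intro h4
      apply hG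
      rw [h4]
      exact ⟨le_rfl, by linarith [mul_nonneg hC.le (sd_nonneg n)]⟩
    have h5 : 1 ≤ |Y n G - (round (E n (Y n)) : ℝ)| := by
      unfold Y at h3 ⊢
      have h6 : ((G.chromaticNumber.toNat : ℤ) - round (E n (Y n))) ≠ 0 := by
        intro h7
        apply h3
        have h8 : (G.chromaticNumber.toNat : ℤ) = round (E n (Y n)) := by omega
        exact_mod_cast congrArg (Int.cast (R := ℝ)) h8
      have h9 := Int.one_le_abs h6
      exact_mod_cast h9
    have h10 := abs_sub_round (E n (Y n))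
    have h11 : 1 / 2 ≤ |Y n G - E n (Y n)| := by
      have h12 := abs_sub_le (Y n G) (E n (Y n)) (round (E n (Y n)) : ℝ)
      linarith
    have h13 := mul_self_le_mul_self (by norm_num) h11
    rw [← pow_two, ← pow_two, sq_abs] at h13
    linarith
  linarith

/-- If `m` is concentrated on intervals of length `C σ_m`, there are `k` different `n` in the
window. Induction on `k`: given `s`, `δ`, `n₀` for `k`, apply `WK` with `C' = (C + K) * B / s + C + K`,
so that the new `n` has `σ_n < s` by `P_near` and `P_mono`, hence is not one of the old ones. -/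
theorem many (K : ℝ) (hK : 0 < K) (hW : WK K) (C B : ℝ) (hC : 0 < C) (hB : 0 < B) (k : ℕ) :
    ∃ s : ℝ, 0 < s ∧ ∃ δ : ℝ, 0 < δ ∧ ∃ n₀ : ℕ, ∀ m, n₀ ≤ m → sd m < B →
      (∃ a : ℝ, 1 - δ < P m a (C * sd m)) → ∃ T : Finset ℕ, T.card = k ∧
        ∀ n ∈ T, |(n : ℝ) - m| ≤ K * sd m ∧ s ≤ sd n := by
  classical
  induction k with
  | zero => exact ⟨1, one_pos, 1, one_pos, 0, fun m _ _ _ => ⟨∅, rfl, by simp⟩⟩
  | succ k ih =>
    obtain ⟨s, hs, δ, hδ, n₀, ih⟩ := ih
    have hC' : 0 < (C + K) * B / s + (C + K) := by positivity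
    obtain ⟨δ', hδ', n₁, h1⟩ := hW ((C + K) * B / s + (C + K)) hC'
    refine ⟨min s √(δ' / 4), lt_min hs (Real.sqrt_pos.2 (by positivity)), min δ δ',
      lt_min hδ hδ', max n₀ n₁, fun m hm hmB ha => ?_⟩
    obtain ⟨a, ha⟩ := ha
    obtain ⟨T, hT, hT'⟩ := ih m (le_trans (le_max_left _ _) hm) hmB
      ⟨a, lt_of_le_of_lt (by linarith [min_le_left δ δ']) ha⟩
    obtain ⟨n, hn, hn'⟩ := h1 m (le_trans (le_max_right _ _) hm)
    have h2 : sd n < s := by
      by_contra h3
      push Not at h3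
      obtain ⟨b, hb⟩ := P_near m n a (C * sd m)
      have h4 : C * sd m + |(n : ℝ) - m| ≤ ((C + K) * B / s + (C + K)) * sd n := by
        have h5 : C * sd m + |(n : ℝ) - m| ≤ (C + K) * B := by
          nlinarith [sd_nonneg m]
        have h6 : (C + K) * B ≤ (C + K) * B / s * sd n := by
          rw [div_mul_eq_mul_div, le_div_iff₀ hs]
          exact mul_le_mul_of_nonneg_left h3 (by positivity)
        have h7 : 0 ≤ (C + K) * sd n := mul_nonneg (by positivity) (sd_nonneg n)
        rw [add_mul]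
        linarith
      have h5 := hb.trans ((P_mono h4).trans (hn' b))
      linarith [min_le_right δ δ']
    refine ⟨insert n T, ?_, ?_⟩
    · rw [Finset.card_insert_of_notMem, hT]
      intro h3
      exact absurd (hT' n h3).2 (not_le.2 h2)
    · intro x hx
      rcases Finset.mem_insert.1 hx with rfl | hx
      · exact ⟨hn, (min_le_right _ _).trans (sd_ge_of_nc hC' hn')⟩
      · exact ⟨(hT' x hx).1, (min_le_left _ _).trans (hT' x hx).2⟩

theorem nc_of_wk (K : ℝ) (hK : 0 < K) (hW : WK K) : NC := by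
  intro C hC
  obtain ⟨B, hB, hst⟩ := sd_stable K hK
  obtain ⟨s, hs, δ₁, hδ₁, n₁, h1⟩ := many K hK hW C B hC hB (2 * ⌊K * B⌋₊ + 2)
  obtain ⟨δ₂, hδ₂, n₂, h2⟩ := hW (2 * (C + K)) (by positivity)
  refine ⟨min δ₁ δ₂, lt_min hδ₁ hδ₂, max n₁ n₂, fun m hm a => ?_⟩
  by_contra hcon
  push Not at hcon
  rcases lt_or_ge (sd m) B with hmB | hmB
  · obtain ⟨T, hT, hT'⟩ := h1 m (le_trans (le_max_left _ _) hm) hmB
      ⟨a, lt_of_le_of_lt (by linarith [min_le_left δ₁ δ₂]) hcon⟩
    have h3 : T ⊆ Finset.Icc (m - ⌊K * B⌋₊) (m + ⌊K * B⌋₊) := by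
      intro n hn
      have h4 := (hT' n hn).1
      have h5 : |(n : ℝ) - m| ≤ K * B :=
        h4.trans (mul_le_mul_of_nonneg_left hmB.le hK.le)
      rw [abs_le] at h5
      rw [Finset.mem_Icc]
      constructor
      · rw [tsub_le_iff_right]
        rcases le_total n m with h | h
        · obtain ⟨r, rfl⟩ := Nat.exists_eq_add_of_le h
          have h6 : r ≤ ⌊K * B⌋₊ := by
            apply Nat.le_floor
            have := h5.1
            push_cast at this
            linarith
          omega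
        · omega
      · rcases le_total m n with h | h
        · obtain ⟨r, rfl⟩ := Nat.exists_eq_add_of_le h
          have h6 : r ≤ ⌊K * B⌋₊ := by
            apply Nat.le_floor
            have := h5.2
            push_cast at this
            linarith
          omega
        · omega
    have h4 := Finset.card_le_card h3
    rw [hT, Nat.card_Icc] at h4
    omega
  · obtain ⟨n, hn, hn'⟩ := h2 m (le_trans (le_max_right _ _) hm)
    obtain ⟨b, hb⟩ := P_near m n a (C * sd m)
    have h3 := hst m n hmB hn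
    have h4 : C * sd m + |(n : ℝ) - m| ≤ 2 * (C + K) * sd n := by
      have h5 : (C + K) * sd m ≤ (C + K) * (2 * sd n) :=
        mul_le_mul_of_nonneg_left (by linarith) (by positivity)
      linarith
    have h5 := hb.trans ((P_mono h4).trans (hn' b))
    linarith [min_le_right δ₁ δ₂]

theorem longwin (K : ℝ) (hK : 0 < K) : Q1 ↔ WK K := by
  rw [q1_iff]
  refine ⟨fun h C hC => ?_, nc_of_wk K hK⟩
  obtain ⟨δ, hδ, n₀, hn⟩ := h C hC
  refine ⟨δ, hδ, n₀, fun m hm => ⟨m, ?_, hn m hm⟩⟩
  rw [sub_self, abs_zero]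
  exact mul_nonneg hK.le (sd_nonneg m)

end ChiVar
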