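import Pool.Agent.Lib.MP_bea9c1_prK.Pot

/-!
# MP_bea9c1_pr: the chromatic number of `G_{r,1/2}` is `o(r)` in the mean

By `pot_step` and induction `E (x ^ qs) ≤ E_0 + r (x - 1)`, `x = 1 / (1 - 2⁻ᵗ) > 1`, where
`E_0 = x ^ 0 = 1` or simply `E 0 (..)` as it is a constant.  Since `x > 1`, for every `η > 0` there is
`B` with `q ≤ B + η x ^ q` for all natural `q` (exponentials beat linear functions).  So
`E Y_r ≤ E qs + r / (t + 1) ≤ B + η (E_0 + r (x - 1)) + r / (t + 1)` by `Y_le_nop` and `qs_spec`;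
take `t` with `1 / (t + 1) ≤ ε / 3`, then `η = ε / (3 (x - 1))`, then `r` large.
-/

set_option autoImplicit false

namespace ChiVar

theorem E_small (ε : ℝ) (hε : 0 < ε) : ∃ R : ℕ, ∀ r, R ≤ r → E r (Y r) ≤ ε * r := by
  obtain ⟨t, ht0, ht1⟩ : ∃ t : ℕ, 0 < t ∧ 3 / ε ≤ t :=
    ⟨⌈3 / ε⌉₊, Nat.ceil_pos.2 (by positivity), Nat.le_ceil _⟩
  have hp0 : (0 : ℝ) < (1 / 2) ^ t := by positivity
  have hp1 : ((1 : ℝ) / 2) ^ t < 1 := pow_lt_one₀ (by norm_num) (by norm_num) ht0.ne'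
  have hpot := pot_step t ht0
  obtain ⟨x, hx⟩ : ∃ x : ℝ, x = 1 / (1 - (1 / 2 : ℝ) ^ t) := ⟨_, rfl⟩
  rw [← hx] at hpot
  have hx1 : 1 < x := by
    rw [hx, lt_div_iff₀ (by linarith)]
    linarith
  have hx0 : 0 < x := by linarith
  obtain ⟨E0, hE0⟩ : ∃ E0 : ℝ, E0 = E 0 (fun H => x ^ qs t 0 H) := ⟨_, rfl⟩
  have hE00 : 0 ≤ E0 := by
    rw [hE0]
    exact E_nonneg fun H => by positivity
  have hind : ∀ r : ℕ, E r (fun H => x ^ qs t r H) ≤ E0 + r * (x - 1) := by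
    intro r
    induction r with
    | zero => rw [hE0]; simp
    | succ r ih =>
      have h := hpot r
      push_cast
      linarith
  have hx2 : 0 < x - 1 := by linarith
  obtain ⟨η, hη⟩ : ∃ η : ℝ, η = ε / (3 * (x - 1)) := ⟨_, rfl⟩
  have hη0 : 0 < η := by rw [hη]; positivity
  have hlim := tendsto_pow_const_div_const_pow_of_one_lt 1 hx1
  obtain ⟨N, hN⟩ := Filter.eventually_atTop.1 (hlim.eventually_lt_const hη0)
  have hB : ∀ q : ℕ, (q : ℝ) ≤ N + η * x ^ q := by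
    intro q
    rcases le_or_gt N q with h | h
    · have h1 := hN q h
      rw [pow_one, div_lt_iff₀ (by positivity)] at h1
      have h2 : (0 : ℝ) ≤ N := Nat.cast_nonneg N
      linarith
    · have h2 : (q : ℝ) ≤ N := by exact_mod_cast h.le
      have h3 : 0 ≤ η * x ^ q := by positivity
      linarith
  refine ⟨⌈(N + η * E0) * 3 / ε⌉₊, fun r hr => ?_⟩
  have hr1 : (N + η * E0) * 3 / ε ≤ r := (Nat.le_ceil _).trans (by exact_mod_cast hr)
  have h1 : E r (Y r) ≤ E r (fun H => η * x ^ qs t r H + (N + r / (t + 1))) := by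
    refine E_mono fun H => ?_
    obtain ⟨c, hc, hcq⟩ := qs_spec t r H
    have h2 := Y_le_nop t H c hc
    rw [hcq] at h2
    have h3 := hB (qs t r H)
    linarith
  rw [E_add (fun H => η * x ^ qs t r H) (fun _ => (N + r / (t + 1) : ℝ)), E_const,
    E_mul (fun H => x ^ qs t r H)] at h1
  have h3 : η * E r (fun H => x ^ qs t r H) ≤ η * (E0 + r * (x - 1)) :=
    mul_le_mul_of_nonneg_left (hind r) hη0.le
  have h4 : η * (r * (x - 1)) = ε * r / 3 := by
    rw [hη]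
    field_simp
  have h5 : (r : ℝ) / (t + 1) ≤ ε * r / 3 := by
    rw [div_le_div_iff₀ (by positivity) (by norm_num)]
    have h6 : 3 ≤ ε * (t + 1) := by
      rw [div_le_iff₀ hε] at ht1
      nlinarith
    have h7 : (0 : ℝ) ≤ r := Nat.cast_nonneg r
    nlinarith
  have h6 : N + η * E0 ≤ ε * r / 3 := by
    rw [div_le_iff₀ hε] at hr1
    linarith
  rw [mul_add] at h3
  linarith

end ChiVar
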