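import Pool.Agent.Lib.MP_bea9c1_prK.Diff
import Pool.Agent.Lib.MP_bea9c1_prK.Small

/-!
# MP_bea9c1_pr: for large `σ_m` the standard deviation is stable on long windows

`0 ≤ Y_r ≤ r`, so `E (Y_r)² ≤ r E Y_r ≤ ε r²` for `r ≥ R` (`E_small`) and `E (Y_r)² ≤ r² ≤ R²` for
`r ≤ R`; with `sd_add_le`: `|sd n - sd m| ≤ √ε |n - m| + R ≤ √ε K sd m + R ≤ sd m / 2` if
`√ε K ≤ 1 / 4` and `R ≤ sd m / 4`.
-/

set_option autoImplicit false

namespace ChiVar

private theorem Y_le_card (r : ℕ) (G : SimpleGraph (Fin r)) : Y r G ≤ r := by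
  unfold Y
  have h1 : G.Colorable (Fintype.card (Fin r)) := G.colorable_of_fintype
  rw [Fintype.card_fin] at h1
  have h2 : G.chromaticNumber ≤ (r : ℕ∞) := h1.chromaticNumber_le
  have h3 : G.chromaticNumber.toNat ≤ r := by
    have h4 := ENat.toNat_le_toNat h2 (ENat.coe_ne_top r)
    rwa [ENat.toNat_coe] at h4
  exact_mod_cast h3

private theorem Y_nonneg' (r : ℕ) (G : SimpleGraph (Fin r)) : 0 ≤ Y r G := Nat.cast_nonneg _

private theorem root_bound (K : ℝ) (hK : 0 < K) : ∃ R : ℕ, ∀ r : ℕ,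
    √(E r fun G => Y r G ^ 2) ≤ r / (4 * K) + R := by
  obtain ⟨R, hR⟩ := E_small (1 / (16 * K ^ 2)) (by positivity)
  refine ⟨R, fun r => ?_⟩
  have hr0 : (0 : ℝ) ≤ r := Nat.cast_nonneg r
  have hR0 : (0 : ℝ) ≤ R := Nat.cast_nonneg R
  have hE : (E r fun G => Y r G ^ 2) ≤ r * E r (Y r) := by
    rw [← E_mul]
    refine E_mono fun G => ?_
    have h1 := Y_le_card r G
    have h2 := Y_nonneg' r G
    nlinarith
  rcases le_or_gt R r with h | h
  · have h1 := hR r h
    have h2 : (E r fun G => Y r G ^ 2) ≤ (r / (4 * K)) ^ 2 := by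
      refine hE.trans ((mul_le_mul_of_nonneg_left h1 hr0).trans (le_of_eq ?_))
      field_simp
      ring
    have h3 : √(E r fun G => Y r G ^ 2) ≤ r / (4 * K) := by
      rw [Real.sqrt_le_iff]
      exact ⟨by positivity, h2⟩
    linarith
  · have h1 : E r (Y r) ≤ r := by
      rw [← E_const (n := r) (r : ℝ)]
      exact E_mono fun G => Y_le_card r G
    have h2 : (E r fun G => Y r G ^ 2) ≤ (r : ℝ) ^ 2 := by
      refine hE.trans ((mul_le_mul_of_nonneg_left h1 hr0).trans (le_of_eq ?_))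
      ring
    have h3 : √(E r fun G => Y r G ^ 2) ≤ r := by
      rw [Real.sqrt_le_iff]
      exact ⟨hr0, h2⟩
    have h4 : (r : ℝ) ≤ R := by exact_mod_cast h.le
    have h5 : 0 ≤ (r : ℝ) / (4 * K) := by positivity
    linarith

theorem sd_stable (K : ℝ) (hK : 0 < K) : ∃ B : ℝ, 0 < B ∧ ∀ m n : ℕ, B ≤ sd m →
    |(n : ℝ) - m| ≤ K * sd m → sd m / 2 ≤ sd n := by
  obtain ⟨R, hR⟩ := root_bound K hK
  have hR0 : (0 : ℝ) ≤ R := Nat.cast_nonneg R
  refine ⟨4 * R + 1, by positivity, fun m n hB hmn => ?_⟩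
  have key : ∀ r : ℕ, (r : ℝ) ≤ K * sd m → √(E r fun G => Y r G ^ 2) ≤ sd m / 2 := by
    intro r hr
    have h1 : (r : ℝ) / (4 * K) ≤ sd m / 4 := by
      rw [div_le_div_iff₀ (by positivity) (by norm_num)]
      nlinarith
    have h2 := hR r
    linarith
  rcases le_total m n with h | h
  · obtain ⟨r, rfl⟩ := Nat.exists_eq_add_of_le h
    have h1 : (r : ℝ) ≤ K * sd m := by
      push_cast at hmn
      rwa [add_sub_cancel_left, abs_of_nonneg (Nat.cast_nonneg r)] at hmn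
    have h2 := (abs_le.1 (sd_add_le m r)).1
    have h3 := key r h1
    linarith
  · obtain ⟨r, rfl⟩ := Nat.exists_eq_add_of_le h
    have h1 : (r : ℝ) ≤ K * sd (n + r) := by
      push_cast at hmn
      rwa [sub_add_cancel_left, abs_neg, abs_of_nonneg (Nat.cast_nonneg r)] at hmn
    have h2 := (abs_le.1 (sd_add_le n r)).2
    have h3 := key r h1
    linarith

end ChiVar
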