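import Pool.Agent.Lib.MP_bea9c1_prW.Win

/-!
# MP_bea9c1_pr: colourings with few small classes
-/

set_option autoImplicit false

namespace ChiVar

/-- The class of the colour `i`. -/
noncomputable def cls {n : ℕ} (c : Fin n → ℕ) (i : ℕ) : Finset (Fin n) :=
  Finset.univ.filter fun a => c a = i

/-- The number of colours (of those used) with at most `t` vertices. -/
noncomputable def nop (t : ℕ) {n : ℕ} (c : Fin n → ℕ) : ℕ :=
  ((Finset.univ.image c).filter fun i => (cls c i).card ≤ t).card

/-- The colouring `c` is proper. -/
def Prp {n : ℕ} (H : SimpleGraph (Fin n)) (c : Fin n → ℕ) : Prop := ∀ a b, H.Adj a b → c a ≠ c b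

end ChiVar
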