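import Mathlib

/-!
# MP_bea9c1_pr: sets that meet all classes

Induction on `𝒱` (`Finset.induction_on`, `t` fixed): let `A` be the sets meeting all members of `𝒱`,
and `V` new.  The map `S ↦ S \ V` sends `A` into `{S ∈ A | Disjoint V S}` (the members of `𝒱` are
disjoint from `V`) and its fibres have at most `2 ^ #V ≤ 2 ^ t` elements (`S ↦ S ∩ V` is injective
on a fibre; `Finset.card_le_mul_card_image`).  So `#A ≤ 2 ^ t * #{S ∈ A | Disjoint V S}`, and the sets
meeting `V` as well are at most `(1 - 2⁻ᵗ) #A`.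
-/

set_option autoImplicit false

namespace ChiVar

open Classical in
private theorem card_step_cnt {n : ℕ} (t : ℕ) (𝒱 : Finset (Finset (Fin n))) (V : Finset (Fin n))
    (hV : ∀ W ∈ 𝒱, Disjoint V W) (ht : V.card ≤ t) (A : Finset (Finset (Fin n)))
    (hA : A = (Finset.univ : Finset (Finset (Fin n))).filter fun S => ∀ W ∈ 𝒱, ¬ Disjoint W S) :
    A.card ≤ 2 ^ t * (A.filter fun S => Disjoint V S).card := by
  have h1 : A.card ≤ 2 ^ t * (A.image fun S => S \ V).card := by
    refine Finset.card_le_mul_card_image A (2 ^ t) ?_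
    intro a _
    have h2 : (A.filter fun S => S \ V = a).card ≤ V.powerset.card := by
      refine Finset.card_le_card_of_injOn (fun S => S ∩ V) ?_ ?_
      · intro S _
        exact Finset.mem_coe.2 (Finset.mem_powerset.2 Finset.inter_subset_right)
      · intro S hS T hT hST
        have hS' := (Finset.mem_filter.1 (Finset.mem_coe.1 hS)).2
        have hT' := (Finset.mem_filter.1 (Finset.mem_coe.1 hT)).2
        simp only at hST
        rw [← Finset.sdiff_union_inter S V, ← Finset.sdiff_union_inter T V, hS', hT', hST]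
    refine h2.trans ?_
    rw [Finset.card_powerset]
    exact Nat.pow_le_pow_right (by norm_num) ht
  refine h1.trans (Nat.mul_le_mul_left _ (Finset.card_le_card ?_))
  intro R hR
  obtain ⟨S, hS, rfl⟩ := Finset.mem_image.1 hR
  rw [hA, Finset.mem_filter] at hS
  rw [Finset.mem_filter, hA, Finset.mem_filter]
  refine ⟨⟨Finset.mem_univ _, fun W hW hdis => ?_⟩, Finset.disjoint_sdiff⟩
  apply hS.2 W hW
  rw [Finset.disjoint_left] at hdis ⊢
  intro x hxW hxS
  refine hdis hxW (Finset.mem_sdiff.2 ⟨hxS, fun hxV => ?_⟩)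
  exact Finset.disjoint_left.1 (hV W hW) hxV hxW

open Classical in
theorem card_meet {n : ℕ} (t : ℕ) (𝒱 : Finset (Finset (Fin n)))
    (hd : ∀ V ∈ 𝒱, ∀ W ∈ 𝒱, V ≠ W → Disjoint V W) (ht : ∀ V ∈ 𝒱, V.card ≤ t) :
    (((Finset.univ : Finset (Finset (Fin n))).filter
      fun S => ∀ V ∈ 𝒱, ¬ Disjoint V S).card : ℝ) ≤ (1 - (1 / 2) ^ t) ^ 𝒱.card * 2 ^ n := by
  induction 𝒱 using Finset.induction_on with
  | empty => simp
  | insert V 𝒱 hnot ih =>
    have ih' := ih (fun X hX Y hY => hd X (Finset.mem_insert_of_mem hX) Y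
      (Finset.mem_insert_of_mem hY)) (fun X hX => ht X (Finset.mem_insert_of_mem hX))
    set A : Finset (Finset (Fin n)) := (Finset.univ : Finset (Finset (Fin n))).filter
      fun S => ∀ W ∈ 𝒱, ¬ Disjoint W S with hA
    have hstep := card_step_cnt t 𝒱 V (fun W hW => hd V (Finset.mem_insert_self _ _) W
      (Finset.mem_insert_of_mem hW) (fun h => hnot (h ▸ hW))) (ht V (Finset.mem_insert_self _ _)) A hA
    have hsub : ((Finset.univ : Finset (Finset (Fin n))).filter
        fun S => ∀ W ∈ insert V 𝒱, ¬ Disjoint W S) = A.filter fun S => ¬ Disjoint V S := by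
      ext S
      rw [Finset.mem_filter, Finset.mem_filter, hA, Finset.mem_filter]
      constructor
      · rintro ⟨h1, h2⟩
        exact ⟨⟨h1, fun W hW => h2 W (Finset.mem_insert_of_mem hW)⟩,
          h2 V (Finset.mem_insert_self _ _)⟩
      · rintro ⟨⟨h1, h2⟩, h3⟩
        refine ⟨h1, fun W hW => ?_⟩
        rcases Finset.mem_insert.1 hW with rfl | hW
        · exact h3
        · exact h2 W hW
    have hsplit := Finset.card_filter_add_card_filter_not (s := A) (fun S => Disjoint V S)
    rw [hsub, Finset.card_insert_of_notMem hnot]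
    have h1 : (A.card : ℝ) ≤ 2 ^ t * ((A.filter fun S => Disjoint V S).card : ℝ) := by
      exact_mod_cast hstep
    have h2 : ((A.filter fun S => Disjoint V S).card : ℝ) +
        ((A.filter fun S => ¬ Disjoint V S).card : ℝ) = A.card := by
      exact_mod_cast hsplit
    have h3 : (1 / 2 : ℝ) ^ t * A.card ≤ ((A.filter fun S => Disjoint V S).card : ℝ) := by
      have h4 : (1 / 2 : ℝ) ^ t * 2 ^ t = 1 := by
        rw [← mul_pow]; norm_num
      calc (1 / 2 : ℝ) ^ t * A.card
          ≤ (1 / 2 : ℝ) ^ t * (2 ^ t * ((A.filter fun S => Disjoint V S).card : ℝ)) :=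
            mul_le_mul_of_nonneg_left h1 (by positivity)
        _ = ((A.filter fun S => Disjoint V S).card : ℝ) := by
            rw [← mul_assoc, h4, one_mul]
    have h5 : (0 : ℝ) ≤ 1 - (1 / 2) ^ t := by
      have : (1 / 2 : ℝ) ^ t ≤ 1 := pow_le_one₀ (by norm_num) (by norm_num)
      linarith
    calc ((A.filter fun S => ¬ Disjoint V S).card : ℝ)
        ≤ (1 - (1 / 2) ^ t) * A.card := by linarith
      _ ≤ (1 - (1 / 2) ^ t) * ((1 - (1 / 2) ^ t) ^ 𝒱.card * 2 ^ n) :=
          mul_le_mul_of_nonneg_left ih' h5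
      _ = (1 - (1 / 2) ^ t) ^ (𝒱.card + 1) * 2 ^ n := by ring

end ChiVar
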