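import Pool.Agent.Lib.MP_bea9c1_prW.Win

/-!
# MP_bea9c1_pr: subadditivity of the chromatic number

Lower bound: `of_hom` (as in `Y_rst_le`, file `Lib/MP_bea9c1_prW/Coup.lean`).  Upper bound: colour
the first `n` vertices with `Sum.inl` of a colouring and the last `r` with `Sum.inr` of a colouring
(`Fin.addCases`), as in `Y_le_rst`; `col` gives the colourings and `Y_le` the bound.
-/

set_option autoImplicit false

namespace ChiVar

theorem Y_left_le (n r : ℕ) (G : SimpleGraph (Fin (n + r))) :
    Y n (G.comap (Fin.castAdd r)) ≤ Y (n + r) G := by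
  refine Y_le ?_
  exact (col (n + r) G).of_hom ⟨Fin.castAdd r, fun h => h⟩

theorem Y_le_add (n r : ℕ) (G : SimpleGraph (Fin (n + r))) :
    Y (n + r) G ≤ Y n (G.comap (Fin.castAdd r)) + Y r (G.comap (Fin.natAdd n)) := by
  obtain ⟨c⟩ := col n (G.comap (Fin.castAdd r))
  obtain ⟨d⟩ := col r (G.comap (Fin.natAdd n))
  have h : G.Colorable ((G.comap (Fin.castAdd r)).chromaticNumber.toNat +
      (G.comap (Fin.natAdd n)).chromaticNumber.toNat) := by
    have h1 : G.Coloring (Fin (G.comap (Fin.castAdd r)).chromaticNumber.toNat ⊕
        Fin (G.comap (Fin.natAdd n)).chromaticNumber.toNat) :=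
      SimpleGraph.Coloring.mk (fun x => Fin.addCases (motive := fun _ =>
        Fin (G.comap (Fin.castAdd r)).chromaticNumber.toNat ⊕
          Fin (G.comap (Fin.natAdd n)).chromaticNumber.toNat)
        (fun a => Sum.inl (c a)) (fun b => Sum.inr (d b)) x) (by
          intro x y
          refine Fin.addCases (fun a => ?_) (fun a => ?_) x <;>
            refine Fin.addCases (fun b => ?_) (fun b => ?_) y
          · intro hab
            simp only [Fin.addCases_left, ne_eq, Sum.inl.injEq]
            exact c.valid hab
          · simp
          · simp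
          · intro hab
            simp only [Fin.addCases_right, ne_eq, Sum.inr.injEq]
            exact d.valid hab)
    have h2 := h1.colorable
    rwa [Fintype.card_sum, Fintype.card_fin, Fintype.card_fin] at h2
  have h3 := Y_le h
  unfold Y at h3 ⊢
  exact_mod_cast h3

end ChiVar
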