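import Pool.Agent.Lib.MP_bea9c1_prK.Marg
import Pool.Agent.Lib.MP_bea9c1_prK.SubAdd

/-!
# MP_bea9c1_pr: the standard deviation changes by at most the second moment norm of `Y_r`

As `sd_diff` in `Lib/MP_bea9c1_prW/Win.lean` (E_mink twice): with `X = Y (n+r) G - ν` and
`X' = Y n (G.comap (Fin.castAdd r)) - μ`, `D = Y (n+r) G - Y n (..)` is in `[0, Y r (G.comap natAdd)]`,
`E D = ν - μ`, so `E (X - X')² = E D² - (ν - μ)² ≤ E D² ≤ E (Y r)²` (`E_right` with `f = Y r ^ 2`).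
-/

set_option autoImplicit false

namespace ChiVar

theorem sd_add_le (n r : ℕ) : |sd (n + r) - sd n| ≤ √(E r fun G => Y r G ^ 2) := by
  obtain ⟨μ, hμ⟩ : ∃ μ, μ = E n (Y n) := ⟨_, rfl⟩
  obtain ⟨ν, hν⟩ : ∃ ν, ν = E (n + r) (Y (n + r)) := ⟨_, rfl⟩
  obtain ⟨Z, hZ⟩ : ∃ Z : SimpleGraph (Fin (n + r)) → ℝ,
      Z = fun G => Y n (G.comap (Fin.castAdd r)) := ⟨_, rfl⟩
  have hEZ : E (n + r) Z = μ := by
    rw [hZ, hμ]
    exact E_left n r (Y n)
  have h1 : sd n = √(E (n + r) fun G => (Z G - μ) ^ 2) := by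
    unfold sd
    rw [← E_left n r (fun G => (Y n G - E n (Y n)) ^ 2), hZ, hμ]
  have h2 : sd (n + r) = √(E (n + r) fun G => (Y (n + r) G - ν) ^ 2) := by
    rw [hν]
    rfl
  have h3 : (E (n + r) fun G => ((Y (n + r) G - ν) - (Z G - μ)) ^ 2) ≤
      E r fun G => Y r G ^ 2 := by
    have h4 : (E (n + r) fun G => ((Y (n + r) G - ν) - (Z G - μ)) ^ 2) =
        (E (n + r) fun G => (Y (n + r) G - Z G) ^ 2) +
          (((-2 * (ν - μ)) * ν + (2 * (ν - μ)) * μ) + (ν - μ) ^ 2) := by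
      have h6 : (fun G : SimpleGraph (Fin (n + r)) => ((Y (n + r) G - ν) - (Z G - μ)) ^ 2) =
          fun G => (Y (n + r) G - Z G) ^ 2 +
            (((-2 * (ν - μ)) * Y (n + r) G + (2 * (ν - μ)) * Z G) + (ν - μ) ^ 2) := by
        funext G
        ring
      rw [h6, E_add (fun G => (Y (n + r) G - Z G) ^ 2)
        (fun G => ((-2 * (ν - μ)) * Y (n + r) G + (2 * (ν - μ)) * Z G) + (ν - μ) ^ 2),
        E_add (fun G => (-2 * (ν - μ)) * Y (n + r) G + (2 * (ν - μ)) * Z G)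
          (fun _ => (ν - μ) ^ 2), E_const,
        E_add (fun G => (-2 * (ν - μ)) * Y (n + r) G) (fun G => (2 * (ν - μ)) * Z G),
        E_mul (Y (n + r)), E_mul Z, hEZ, ← hν]
    have h5 : (E (n + r) fun G => (Y (n + r) G - Z G) ^ 2) ≤ E r fun G => Y r G ^ 2 := by
      rw [← E_right n r (fun G => Y r G ^ 2)]
      refine E_mono fun G => ?_
      have h7 := Y_left_le n r G
      have h8 := Y_le_add n r G
      rw [hZ]
      exact pow_le_pow_left₀ (sub_nonneg.2 h7) (by linarith) 2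
    rw [h4]
    have h9 : ((-2 * (ν - μ)) * ν + (2 * (ν - μ)) * μ) + (ν - μ) ^ 2 = -(ν - μ) ^ 2 := by ring
    rw [h9]
    have := sq_nonneg (ν - μ)
    linarith
  have h7 : √(E (n + r) fun G => ((Y (n + r) G - ν) - (Z G - μ)) ^ 2) ≤
      √(E r fun G => Y r G ^ 2) := Real.sqrt_le_sqrt h3
  have h8 : sd (n + r) ≤ sd n +
      √(E (n + r) fun G => ((Y (n + r) G - ν) - (Z G - μ)) ^ 2) := by
    rw [h1, h2]
    refine le_trans (le_of_eq ?_) (E_mink (fun G => Z G - μ)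
      (fun G => (Y (n + r) G - ν) - (Z G - μ)))
    congr 2
    funext G
    ring
  have h9 : sd n ≤ sd (n + r) +
      √(E (n + r) fun G => ((Y (n + r) G - ν) - (Z G - μ)) ^ 2) := by
    rw [h1, h2, ← E_neg_sq (fun G => (Y (n + r) G - ν) - (Z G - μ))]
    refine le_trans (le_of_eq ?_) (E_mink (fun G => Y (n + r) G - ν)
      (fun G => -((Y (n + r) G - ν) - (Z G - μ))))
    congr 2
    funext G
    ring
  rw [abs_le]
  constructor <;> linarith

end ChiVar
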