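import Pool.Agent.Lib.MP_bea9c1_prW.Win

/-!
# MP_bea9c1_pr: marginals of `G_{n+r,1/2}`

`E_left`: from `E_rst` by induction on `r` (`rst G = G.comap Fin.castSucc`, and
`Fin.castAdd (r+1) = Fin.castSucc ∘ Fin.castAdd r` on `Fin n`, `n + (r+1) = (n+r)+1` by definition).
`E_right`: relabel the vertices by `finAddFlip : Fin (r + n) ≃ Fin (n + r)` (a bijection of the set
of graphs, e.g. by `Equiv.sum_comp` with `Equiv.simpleGraph`, and `finAddFlip_apply_natAdd`), then
use `E_left r n`.
-/

set_option autoImplicit false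

namespace ChiVar

theorem E_left (n r : ℕ) (f : SimpleGraph (Fin n) → ℝ) :
    E (n + r) (fun G => f (G.comap (Fin.castAdd r))) = E n f := by
  induction r with
  | zero =>
    have h : ∀ G : SimpleGraph (Fin (n + 0)), G.comap (Fin.castAdd 0) = G := by
      intro G
      ext a b
      exact Iff.rfl
    exact congrArg (E n) (funext fun G => congrArg f (h G))
  | succ r ih =>
    have h := E_rst (n := n + r) (fun H => f (H.comap (Fin.castAdd r)))
    rw [ih] at h
    exact h

private theorem marg_equiv {M N : ℕ} (e : Fin M ≃ Fin N) (g : SimpleGraph (Fin M) → ℝ) :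
    E N (fun G => g (G.comap e)) = E M g := by
  have h1 : ∑ G : SimpleGraph (Fin N), g (G.comap e) = ∑ H, g H :=
    Equiv.sum_comp (e.symm.simpleGraph) g
  have h2 : Fintype.card (SimpleGraph (Fin N)) = Fintype.card (SimpleGraph (Fin M)) :=
    Fintype.card_congr (e.symm.simpleGraph)
  unfold E
  rw [h1, h2]

theorem E_right (n r : ℕ) (f : SimpleGraph (Fin r) → ℝ) :
    E (n + r) (fun G => f (G.comap (Fin.natAdd n))) = E r f := by
  rw [← E_left r n f,
    ← marg_equiv (finAddFlip : Fin (r + n) ≃ Fin (n + r)) fun H => f (H.comap (Fin.castAdd n))]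
  refine congrArg (E (n + r)) (funext fun G => congrArg f ?_)
  ext a b
  simp only [SimpleGraph.comap_adj, finAddFlip_apply_castAdd]

end ChiVar
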