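import Pool.Agent.Lib.MP_bea9c1_prK.StepD
import Pool.Agent.Lib.MP_bea9c1_prK.Cnt

/-!
# MP_bea9c1_pr: the potential

`qs t n H` is the least number of small classes of a proper colouring of `H`.  With
`x = 1 / (1 - 2⁻ᵗ) > 1` the expectation of `x ^ qs` grows by at most `x - 1` from `n` to `n + 1`:
write `G` as `(H, S)` (`spl`, `S` = the neighbours of the new vertex), take an optimal colouring `c`
of `H`; if `S` misses a small class then `qs G ≤ qs H` (`step_zero`), otherwise `qs G ≤ qs H + 1`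
(`step_one`), and the fraction of the `S` meeting all `qs H` small classes is at most
`x⁻¹ ^ qs H` (`card_meet` for the family of the small classes of `c`, which has `nop t c = qs H`
members since different colours in the image have different, nonempty, disjoint classes).
-/

set_option autoImplicit false

namespace ChiVar

/-- The least number of small classes in a proper colouring. -/
noncomputable def qs (t n : ℕ) (H : SimpleGraph (Fin n)) : ℕ :=
  sInf {q | ∃ c : Fin n → ℕ, Prp H c ∧ nop t c = q}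

theorem qs_spec (t n : ℕ) (H : SimpleGraph (Fin n)) :
    ∃ c : Fin n → ℕ, Prp H c ∧ nop t c = qs t n H := by
  have h : {q | ∃ c : Fin n → ℕ, Prp H c ∧ nop t c = q}.Nonempty := by
    refine ⟨nop t (fun a : Fin n => (a : ℕ)), fun a : Fin n => (a : ℕ), ?_, rfl⟩
    intro a b hab h
    exact hab.ne (Fin.ext h)
  exact Nat.sInf_mem h

theorem qs_le {t n : ℕ} {H : SimpleGraph (Fin n)} {c : Fin n → ℕ} (h : Prp H c) :
    qs t n H ≤ nop t c := Nat.sInf_le ⟨c, h, rfl⟩

private theorem pot_aux (t : ℕ) (ht : 0 < t) (n : ℕ) (H : SimpleGraph (Fin n)) :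
    ∑ S : Finset (Fin n), (1 / (1 - (1 / 2 : ℝ) ^ t)) ^ qs t (n + 1) (ext H S) ≤
      2 ^ n * ((1 / (1 - (1 / 2 : ℝ) ^ t)) ^ qs t n H + (1 / (1 - (1 / 2 : ℝ) ^ t) - 1)) := by
  classical
  obtain ⟨c, hc, hq⟩ := qs_spec t n H
  have hp : (1 / 2 : ℝ) ^ t ≤ 1 / 2 := by
    calc (1 / 2 : ℝ) ^ t ≤ (1 / 2) ^ 1 := pow_le_pow_of_le_one (by norm_num) (by norm_num) ht
      _ = 1 / 2 := pow_one _
  have hp0 : 0 < (1 / 2 : ℝ) ^ t := by positivity
  have hmeet := card_meet (n := n) t
    (((Finset.univ.image c).filter fun i => (cls c i).card ≤ t).image (cls c)) (by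
      intro V hV W hW hne
      obtain ⟨i, -, rfl⟩ := Finset.mem_image.1 hV
      obtain ⟨j, -, rfl⟩ := Finset.mem_image.1 hW
      rw [Finset.disjoint_left]
      intro a ha hb
      simp only [cls, Finset.mem_filter, Finset.mem_univ, true_and] at ha hb
      exact hne (by rw [← ha, ← hb])) (by
      intro V hV
      obtain ⟨i, hi, rfl⟩ := Finset.mem_image.1 hV
      exact (Finset.mem_filter.1 hi).2)
  have hinj : Set.InjOn (cls c)
      ((Finset.univ.image c).filter fun i => (cls c i).card ≤ t : Finset ℕ) := by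
    intro i hi j hj hij
    obtain ⟨a, -, ha⟩ := Finset.mem_image.1 (Finset.mem_filter.1 (Finset.mem_coe.1 hi)).1
    have h1 : a ∈ cls c i := by simp [cls, ha]
    rw [hij] at h1
    simp only [cls, Finset.mem_filter, Finset.mem_univ, true_and] at h1
    rw [← ha, h1]
  rw [Finset.card_image_of_injOn hinj] at hmeet
  have hqc : ((Finset.univ.image c).filter fun i => (cls c i).card ≤ t).card = qs t n H := hq
  rw [hqc] at hmeet
  have hS : ∀ S : Finset (Fin n),
      (1 / (1 - (1 / 2 : ℝ) ^ t)) ^ qs t (n + 1) (ext H S) ≤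
        (1 / (1 - (1 / 2 : ℝ) ^ t)) ^ qs t n H +
          (if ∀ V ∈ ((Finset.univ.image c).filter fun i => (cls c i).card ≤ t).image (cls c),
            ¬ Disjoint V S then (1 / (1 - (1 / 2 : ℝ) ^ t)) ^ (qs t n H + 1) -
              (1 / (1 - (1 / 2 : ℝ) ^ t)) ^ qs t n H else 0) := by
    intro S
    have hx1 : (1 : ℝ) ≤ 1 / (1 - (1 / 2 : ℝ) ^ t) := by
      rw [le_div_iff₀ (by linarith)]
      linarith
    have hrst : Prp (rst (ext H S)) c := by
      rw [rst_ext]
      exact hc
    split_ifs with hmt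
    · obtain ⟨c', h1, h2⟩ := step_one t (ext H S) c hrst
      have h3 : qs t (n + 1) (ext H S) ≤ qs t n H + 1 := by
        rw [← hq]
        exact (qs_le h1).trans h2
      have h4 := pow_le_pow_right₀ hx1 h3
      linarith
    · push Not at hmt
      obtain ⟨V, hV, hdis⟩ := hmt
      obtain ⟨i, hi, rfl⟩ := Finset.mem_image.1 hV
      obtain ⟨hi1, hi2⟩ := Finset.mem_filter.1 hi
      obtain ⟨c', h1, h2⟩ := step_zero t (ext H S) c hrst i hi1 hi2 (by
        intro a ha hadj
        rw [ext_cl] at hadj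
        exact Finset.disjoint_left.1 hdis ha hadj)
      have h3 : qs t (n + 1) (ext H S) ≤ qs t n H := by
        rw [← hq]
        exact (qs_le h1).trans h2
      have h4 := pow_le_pow_right₀ hx1 h3
      linarith
  have hfin := Finset.sum_le_sum fun (S : Finset (Fin n)) (_ : S ∈ Finset.univ) => hS S
  refine hfin.trans ?_
  rw [Finset.sum_add_distrib, Finset.sum_const, Finset.card_univ, Fintype.card_finset,
    Fintype.card_fin, nsmul_eq_mul, ← Finset.sum_filter, Finset.sum_const, nsmul_eq_mul]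
  set y : ℝ := 1 - (1 / 2 : ℝ) ^ t with hy
  have y0 : 0 < y := by
    rw [hy]
    linarith
  have y1 : y ≤ 1 := by
    rw [hy]
    linarith
  have hx1 : (1 : ℝ) ≤ 1 / y := by
    rw [le_div_iff₀ y0]
    linarith
  have hnn : 0 ≤ (1 / y) ^ (qs t n H + 1) - (1 / y) ^ qs t n H := by
    have h8 : (1 / y) ^ qs t n H ≤ (1 / y) ^ (qs t n H + 1) :=
      pow_le_pow_right₀ hx1 (Nat.le_succ (qs t n H))
    linarith
  have h5 := mul_le_mul_of_nonneg_right hmeet hnn
  have h6 : y ^ qs t n H * (1 / y) ^ qs t n H = 1 := by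
    rw [← mul_pow, mul_one_div_cancel y0.ne', one_pow]
  have h7 : y ^ qs t n H * 2 ^ n * ((1 / y) ^ (qs t n H + 1) - (1 / y) ^ qs t n H) =
      2 ^ n * (1 / y - 1) := by
    rw [pow_succ]
    linear_combination (2 ^ n * (1 / y - 1)) * h6
  rw [h7] at h5
  push_cast
  linarith

theorem pot_step (t : ℕ) (ht : 0 < t) (n : ℕ) :
    E (n + 1) (fun G => (1 / (1 - (1 / 2 : ℝ) ^ t)) ^ qs t (n + 1) G) ≤
      E n (fun H => (1 / (1 - (1 / 2 : ℝ) ^ t)) ^ qs t n H) +
        (1 / (1 - (1 / 2 : ℝ) ^ t) - 1) := by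
  have hc : (Fintype.card (SimpleGraph (Fin (n + 1))) : ℝ) =
      2 ^ n * Fintype.card (SimpleGraph (Fin n)) := by
    rw [← Fintype.card_congr (spl n), Fintype.card_prod, Fintype.card_finset, Fintype.card_fin]
    push_cast
    ring
  have hcp : (0 : ℝ) < Fintype.card (SimpleGraph (Fin n)) := by
    exact_mod_cast Fintype.card_pos
  unfold E
  rw [hc, ← (spl n).sum_comp, Fintype.sum_prod_type, div_add' _ _ _ hcp.ne',
    div_le_div_iff₀ (by positivity) hcp]
  have h1 : ∑ H : SimpleGraph (Fin n), ∑ S : Finset (Fin n),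
      (1 / (1 - (1 / 2 : ℝ) ^ t)) ^ qs t (n + 1) (spl n (H, S)) ≤
      ∑ H : SimpleGraph (Fin n), 2 ^ n * ((1 / (1 - (1 / 2 : ℝ) ^ t)) ^ qs t n H +
        (1 / (1 - (1 / 2 : ℝ) ^ t) - 1)) :=
    Finset.sum_le_sum fun H _ => pot_aux t ht n H
  rw [← Finset.mul_sum, Finset.sum_add_distrib, Finset.sum_const, Finset.card_univ,
    nsmul_eq_mul] at h1
  refine (mul_le_mul_of_nonneg_right h1 hcp.le).trans (le_of_eq ?_)
  ring

end ChiVar
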