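import Pool.Agent.Lib.MP_bea9c1_prK.Cls

/-!
# MP_bea9c1_pr: one more vertex

`step_one`: give the new vertex a colour not used by `c`.  `step_zero`: give it the colour `i`.
(Write `c' = Fin.lastCases i c`, or `Fin.snoc`.)  All other classes are unchanged up to
`Fin.castSucc`, the class `i` only grows, so the number of small classes does not grow.
`Y_le_nop`: the number of colours used is `nop t c` plus the number of colours with at least `t + 1`
vertices, which is at most `n / (t + 1)` as the classes are disjoint.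
-/

set_option autoImplicit false

namespace ChiVar

private def StepDext {n : ℕ} (c : Fin n → ℕ) (j : ℕ) : Fin (n + 1) → ℕ :=
  fun x => Fin.lastCases (motive := fun _ => ℕ) j c x

private theorem StepD_c {n : ℕ} (c : Fin n → ℕ) (j : ℕ) (a : Fin n) :
    StepDext c j a.castSucc = c a := by
  simp [StepDext]

private theorem StepD_l {n : ℕ} (c : Fin n → ℕ) (j : ℕ) : StepDext c j (Fin.last n) = j := by
  simp [StepDext]

private theorem StepD_prp {n : ℕ} (G : SimpleGraph (Fin (n + 1))) (c : Fin n → ℕ)
    (hc : Prp (rst G) c) (j : ℕ) (h : ∀ a, c a = j → ¬ G.Adj a.castSucc (Fin.last n)) :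
    Prp G (StepDext c j) := by
  intro x y
  refine Fin.lastCases ?_ (fun a => ?_) x <;> refine Fin.lastCases ?_ (fun b => ?_) y
  · intro h1
    exact absurd h1 (G.loopless.irrefl _)
  · intro h1
    rw [StepD_c, StepD_l]
    intro h2
    exact h b h2.symm h1.symm
  · intro h1
    rw [StepD_c, StepD_l]
    intro h2
    exact h a h2 h1
  · intro h1
    rw [StepD_c, StepD_c]
    exact hc a b h1

private theorem StepD_cls {n : ℕ} (c : Fin n → ℕ) (j i : ℕ) :
    (cls c i).card ≤ (cls (StepDext c j) i).card := by
  refine Finset.card_le_card_of_injOn Fin.castSucc ?_ (Fin.castSucc_injective n).injOn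
  intro a ha
  simp only [cls, Finset.coe_filter, Finset.mem_univ, true_and, Set.mem_ofPred_eq] at ha ⊢
  rw [StepD_c]
  exact ha

private theorem StepD_mem {n : ℕ} (c : Fin n → ℕ) (j k : ℕ)
    (hk : k ∈ Finset.univ.image (StepDext c j)) : k = j ∨ k ∈ Finset.univ.image c := by
  rw [Finset.mem_image] at hk
  obtain ⟨x, _, rfl⟩ := hk
  refine Fin.lastCases ?_ (fun a => ?_) x
  · left
    exact StepD_l c j
  · right
    rw [StepD_c]
    exact Finset.mem_image_of_mem _ (Finset.mem_univ _)

theorem step_one (t : ℕ) {n : ℕ} (G : SimpleGraph (Fin (n + 1))) (c : Fin n → ℕ)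
    (hc : Prp (rst G) c) : ∃ c' : Fin (n + 1) → ℕ, Prp G c' ∧ nop t c' ≤ nop t c + 1 := by
  obtain ⟨j, hj⟩ := Infinite.exists_notMem_finset (Finset.univ.image c)
  refine ⟨StepDext c j, StepD_prp G c hc j ?_, ?_⟩
  · intro a ha
    exact absurd (ha ▸ Finset.mem_image_of_mem c (Finset.mem_univ a)) hj
  · unfold nop
    refine le_trans (Finset.card_le_card ?_) (Finset.card_insert_le j _)
    intro k hk
    rw [Finset.mem_filter] at hk
    rw [Finset.mem_insert, Finset.mem_filter]
    rcases StepD_mem c j k hk.1 with h1 | h1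
    · exact Or.inl h1
    · exact Or.inr ⟨h1, (StepD_cls c j k).trans hk.2⟩

theorem step_zero (t : ℕ) {n : ℕ} (G : SimpleGraph (Fin (n + 1))) (c : Fin n → ℕ)
    (hc : Prp (rst G) c) (i : ℕ) (hi : i ∈ Finset.univ.image c) (ht : (cls c i).card ≤ t)
    (h : ∀ a ∈ cls c i, ¬ G.Adj a.castSucc (Fin.last n)) :
    ∃ c' : Fin (n + 1) → ℕ, Prp G c' ∧ nop t c' ≤ nop t c := by
  refine ⟨StepDext c i, StepD_prp G c hc i ?_, ?_⟩
  · intro a ha
    exact h a (Finset.mem_filter.2 ⟨Finset.mem_univ _, ha⟩)
  · unfold nop
    refine Finset.card_le_card ?_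
    intro k hk
    rw [Finset.mem_filter] at hk
    rw [Finset.mem_filter]
    refine ⟨?_, (StepD_cls c i k).trans hk.2⟩
    rcases StepD_mem c i k hk.1 with h1 | h1
    · rw [h1]
      exact hi
    · exact h1

theorem Y_le_nop (t : ℕ) {n : ℕ} (H : SimpleGraph (Fin n)) (c : Fin n → ℕ) (hc : Prp H c) :
    Y n H ≤ nop t c + n / (t + 1) := by
  have h1 : H.Colorable (Finset.univ.image c).card := by
    have h2 : H.Coloring {x // x ∈ Finset.univ.image c} :=
      SimpleGraph.Coloring.mk
        (fun a => ⟨c a, Finset.mem_image_of_mem c (Finset.mem_univ a)⟩) (by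
          intro a b hab h3
          exact hc a b hab (congrArg Subtype.val h3))
    have h3 := h2.colorable
    rwa [Fintype.card_coe] at h3
  have h2 := Y_le h1
  have h3 : (((Finset.univ.image c).filter fun i => ¬ (cls c i).card ≤ t).card) * (t + 1) ≤ n := by
    have h4 : n = ∑ i ∈ Finset.univ.image c, (cls c i).card := by
      have h5 := Finset.card_eq_sum_card_image c (Finset.univ : Finset (Fin n))
      rw [Finset.card_univ, Fintype.card_fin] at h5
      exact h5
    calc (((Finset.univ.image c).filter fun i => ¬ (cls c i).card ≤ t).card) * (t + 1)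
        = ∑ i ∈ (Finset.univ.image c).filter (fun i => ¬ (cls c i).card ≤ t), (t + 1) := by
          rw [Finset.sum_const, smul_eq_mul]
      _ ≤ ∑ i ∈ (Finset.univ.image c).filter (fun i => ¬ (cls c i).card ≤ t),
            (cls c i).card := by
          refine Finset.sum_le_sum fun i hi => ?_
          have := (Finset.mem_filter.1 hi).2
          omega
      _ ≤ ∑ i ∈ Finset.univ.image c, (cls c i).card :=
          Finset.sum_le_sum_of_subset (Finset.filter_subset _ _)
      _ = n := h4.symm
  have h4 : (Finset.univ.image c).card = nop t c +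
      ((Finset.univ.image c).filter fun i => ¬ (cls c i).card ≤ t).card := by
    unfold nop
    rw [Finset.card_filter_add_card_filter_not]
  have h5 : ((((Finset.univ.image c).filter fun i => ¬ (cls c i).card ≤ t).card : ℕ) : ℝ) ≤
      (n : ℝ) / ((t : ℝ) + 1) := by
    rw [le_div_iff₀ (by positivity)]
    exact_mod_cast h3
  rw [h4] at h2
  push_cast at h2
  linarith

end ChiVar
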